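import Pool.Agent.Helper86.UA.U7

set_option autoImplicit false

/-!
# Goldbach's problem in progressions: the linear forms
-/

open Finset

namespace Pool.Agent.Helper86.GB

open Pool.Agent.Helper86.PS
open Pool.Agent.Helper86.UA

/-- the coefficients -/
def ga (q : ℕ) : Fin 2 → ℤ := ![(q : ℤ), -(q : ℤ)]

/-- the shifts -/
def gh (n b : ℕ) : Fin 2 → ℤ := ![(b : ℤ), 2 * (n : ℤ) - b]

lemma f0 (q n b : ℕ) (x : ℤ) : ga q 0 * x + gh n b 0 = q * x + b := by simp [ga, gh]

lemma f1 (q n b : ℕ) (x : ℤ) : ga q 1 * x + gh n b 1 = 2 * n - b - q * x := by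
  simp only [ga, gh, Matrix.cons_val_one, Matrix.cons_val_fin_one]
  ring

lemma ga_ne {q : ℕ} (hq : 1 ≤ q) (i : Fin 2) : ga q i ≠ 0 := by
  fin_cases i
  · simp [ga]; omega
  · simp [ga]; omega

lemma ga_abs (q : ℕ) (i : Fin 2) : |ga q i| = q := by
  fin_cases i <;> simp [ga]

lemma Del_g (q n b : ℕ) : Del (ga q) (gh n b) * ∏ i, ga q i = 4 * (n : ℤ) ^ 2 * (q : ℤ) ^ 4 := by
  have h0 : univ.erase (0 : Fin 2) = {1} := by decide
  have h1 : univ.erase (1 : Fin 2) = {0} := by decide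
  unfold Del
  rw [Fin.prod_univ_two, Fin.prod_univ_two, h0, h1, prod_singleton, prod_singleton]
  simp only [ga, gh, Matrix.cons_val_zero, Matrix.cons_val_one, Matrix.cons_val_fin_one]
  ring

/-- the number of the residue classes -/
def nuG (n q b p : ℕ) : ℕ :=
  ((range p).filter (fun x : ℕ => (p : ℤ) ∣ ((q : ℤ) * x + b) * (2 * n - (q * x + b)))).card

lemma nuP_g {n q b p : ℕ} (hp : p.Prime) : nuP (ga q) (gh n b) p = nuG n q b p := by
  unfold nuP nuG
  congr 1
  apply filter_congr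
  intro x _
  rw [Fin.exists_fin_two, f0, f1, (Nat.prime_iff_prime_int.1 hp).dvd_mul]
  have : 2 * (n : ℤ) - b - q * x = 2 * n - (q * x + b) := by ring
  rw [this]

lemma adm_g {n q b : ℕ} (h1 : b.Coprime q) (h2 : IsCoprime (2 * (n : ℤ) - b) q) {p : ℕ} (hp : p.Prime) :
    nuP (ga q) (gh n b) p < p := by
  have hpz := Nat.prime_iff_prime_int.1 hp
  by_cases hpq : p ∣ q
  · have hz : nuP (ga q) (gh n b) p = 0 := by
      unfold nuP
      rw [card_eq_zero, filter_eq_empty_iff]
      intro x _ hx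
      rw [Fin.exists_fin_two, f0, f1] at hx
      have hpq' : (p : ℤ) ∣ q := by exact_mod_cast hpq
      have hpqx : (p : ℤ) ∣ q * x := Dvd.dvd.mul_right hpq' _
      rcases hx with hx | hx
      · have h3 : (p : ℤ) ∣ b := (dvd_add_right hpqx).1 hx
        have h4 : p ∣ b := by exact_mod_cast h3
        have h5 := Nat.dvd_gcd h4 hpq
        rw [h1] at h5
        exact hp.one_lt.ne' (Nat.dvd_one.1 h5)
      · have h3 : (p : ℤ) ∣ 2 * n - b := by
          have := dvd_add hx hpqx
          rwa [sub_add_cancel] at this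
        exact hpz.not_unit (h2.isUnit_of_dvd' h3 hpq')
    rw [hz]
    exact hp.pos
  · rcases Nat.lt_or_ge 2 p with h3 | h3
    · apply nuP_lt_of hp h3
      intro i
      rw [← dvd_abs, ga_abs]
      exact_mod_cast hpq
    · have hp2 : p = 2 := le_antisymm h3 hp.two_le
      subst hp2
      have hodd : q % 2 = 1 := by
        rcases Nat.mod_two_eq_zero_or_one q with h | h
        · exact absurd (Nat.dvd_of_mod_eq_zero h) hpq
        · exact h
      unfold nuP
      have h4 : (range 2).filter (fun x : ℕ => ∃ i, ((2 : ℕ) : ℤ) ∣ ga q i * x + gh n b i) ⊆ {b % 2} := by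
        intro x hx
        rw [mem_filter, mem_range, Fin.exists_fin_two, f0, f1] at hx
        rw [mem_singleton]
        obtain ⟨k, hk⟩ : ∃ k, q = 2 * k + 1 := ⟨q / 2, by omega⟩
        have e1 : (q : ℤ) * x = 2 * (k * x) + x := by rw [hk]; push_cast; ring
        obtain ⟨hx1, hx2⟩ := hx
        rw [e1] at hx2
        push_cast at hx2
        rcases hx2 with h5 | h5 <;> omega
      exact lt_of_le_of_lt (card_le_card h4) (by simp)

/-- the number of the representations -/
def reps (n q b u v : ℕ) : ℕ := ((Ico u v).filter (fun p => p.Prime ∧ (2 * n - p).Prime ∧ p ≡ b [MOD q])).card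

/-- the beginning of the interval of the `m` with `u ≤ q m + b` -/
def st (q b u : ℕ) : ℤ := -(((b : ℤ) - u) / q)

lemma st_le {q b u : ℕ} (hq : 1 ≤ q) (m : ℤ) : st q b u ≤ m ↔ (u : ℤ) ≤ q * m + b := by
  have hq0 : (0 : ℤ) < q := by exact_mod_cast hq
  unfold st
  rw [neg_le, Int.le_ediv_iff_mul_le hq0]
  constructor <;> intro h <;> nlinarith

lemma lt_st {q b u : ℕ} (hq : 1 ≤ q) (m : ℤ) : m < st q b u ↔ (q : ℤ) * m + b < u := by
  rw [← not_le, st_le hq, not_le]

lemma pc_g {n q b u v : ℕ} (hq : 1 ≤ q) (hbq : b < q) (hv : v ≤ n) :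
    pc (ga q) (gh n b) (st q b u) (st q b v) = reps n q b u v := by
  have hq0 : (0 : ℤ) < q := by exact_mod_cast hq
  unfold pc reps
  apply card_bij (fun (m : ℤ) _ => (q * m + b).toNat)
  · intro m hm
    rw [mem_filter, mem_Ico, Fin.forall_fin_two, f0, f1, st_le hq, lt_st hq] at hm
    obtain ⟨⟨h1, h2⟩, h3, h4⟩ := hm
    obtain ⟨y, hy⟩ : ∃ y : ℕ, (y : ℤ) = q * m + b := ⟨(q * m + b).toNat, Int.toNat_of_nonneg (by omega)⟩
    have e1 : (q * m + b).toNat = y := by omega
    have e2 : (2 * (n : ℤ) - b - q * m).toNat = 2 * n - y := by omega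
    rw [e1] at h3
    rw [e2] at h4
    rw [mem_filter, mem_Ico, e1]
    refine ⟨by omega, h3, h4, ?_⟩
    have e3 : (b : ℤ) ≡ y [ZMOD q] := by
      rw [hy, Int.modEq_iff_dvd]
      exact ⟨m, by ring⟩
    exact (Int.natCast_modEq_iff.1 e3).symm
  · intro m hm m' hm' hmm
    rw [mem_filter, mem_Ico, Fin.forall_fin_two, f0, f1, st_le hq, lt_st hq] at hm hm'
    have h1 : (q : ℤ) * m + b = q * m' + b := by
      have a1 : 0 ≤ (q : ℤ) * m + b := by
        have := hm.1.1
        omega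
      have a2 : 0 ≤ (q : ℤ) * m' + b := by
        have := hm'.1.1
        omega
      omega
    have h2 : (q : ℤ) * m = q * m' := by linarith
    exact mul_left_cancel₀ hq0.ne' h2
  · intro p hp
    rw [mem_filter, mem_Ico] at hp
    obtain ⟨⟨h1, h2⟩, h3, h4, h5⟩ := hp
    have h6 : (b : ℤ) ≡ p [ZMOD q] := Int.natCast_modEq_iff.2 h5.symm
    rw [Int.modEq_iff_dvd] at h6
    obtain ⟨m, hm⟩ := h6
    have e1 : (q : ℤ) * m + b = p := by linarith
    refine ⟨m, ?_, by rw [e1]; simp⟩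
    rw [mem_filter, mem_Ico, Fin.forall_fin_two, f0, f1, st_le hq, lt_st hq, e1]
    have e2 : (2 * (n : ℤ) - b - q * m).toNat = 2 * n - p := by omega
    rw [e2]
    exact ⟨⟨by exact_mod_cast h1, by exact_mod_cast h2⟩, by simpa using h3, h4⟩

end Pool.Agent.Helper86.GB
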