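import Pool.Agent.Helper86.GB.G1

set_option autoImplicit false

/-!
# Goldbach's problem in all progressions and all intervals
-/

open Finset

namespace Pool.Agent.Helper86.GB

open Pool.Agent.Helper86.PS
open Pool.Agent.Helper86.UA

lemma st_len {q b u v : ℕ} (hq : 1 ≤ q) :
    |((st q b v - st q b u : ℤ) : ℝ) - ((v : ℝ) - u) / q| ≤ 1 := by
  have hq0 : (0 : ℝ) < q := by exact_mod_cast hq
  have h1 := (st_le (b := b) (u := v) hq (st q b v)).1 le_rfl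
  have h2 := (lt_st (b := b) (u := v) hq (st q b v - 1)).1 (by omega)
  have h3 := (st_le (b := b) (u := u) hq (st q b u)).1 le_rfl
  have h4 := (lt_st (b := b) (u := u) hq (st q b u - 1)).1 (by omega)
  have h1' : (v : ℝ) ≤ q * (st q b v : ℝ) + b := by exact_mod_cast h1
  have h2' : (q : ℝ) * ((st q b v : ℝ) - 1) + b < v := by exact_mod_cast h2
  have h3' : (u : ℝ) ≤ q * (st q b u : ℝ) + b := by exact_mod_cast h3
  have h4' : (q : ℝ) * ((st q b u : ℝ) - 1) + b < u := by exact_mod_cast h4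
  rw [abs_le]
  push_cast
  constructor
  · rw [le_sub_iff_add_le, ← le_sub_iff_add_le', div_le_iff₀ hq0]
    nlinarith
  · rw [sub_le_iff_le_add, ← sub_le_iff_le_add', le_div_iff₀ hq0]
    nlinarith

lemma close_ineq {P S L W0 W1 ε : ℝ} (hS : 0 ≤ S) (hL : 0 < L) (hε : 0 < ε) (hε1 : ε ≤ 1) (hW : |W1 - W0| ≤ 1)
    (hW0 : 1 / ε ≤ W0) (h : |P - S * (W1 / L)| ≤ ε * (S * (W1 / L))) : |P - S * (W0 / L)| ≤ 4 * ε * (S * (W0 / L)) := by
  have h0 : 0 < W0 := lt_of_lt_of_le (by positivity) hW0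
  have h1 : 1 ≤ ε * W0 := by
    rw [div_le_iff₀ hε] at hW0
    linarith
  obtain ⟨h2, h3⟩ := abs_le.1 hW
  have h4 : |W1 - W0| ≤ ε * W0 := by linarith
  have h5 : |S * (W1 / L) - S * (W0 / L)| ≤ ε * (S * (W0 / L)) := by
    have e1 : S * (W1 / L) - S * (W0 / L) = S / L * (W1 - W0) := by ring
    rw [e1, abs_mul, abs_of_nonneg (by positivity)]
    calc S / L * |W1 - W0| ≤ S / L * (ε * W0) := mul_le_mul_of_nonneg_left h4 (by positivity)
      _ = _ := by ring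
  have h6 : S * (W1 / L) ≤ 2 * (S * (W0 / L)) := by
    have e1 : W1 ≤ 2 * W0 := by
      have : ε * W0 ≤ 1 * W0 := mul_le_mul_of_nonneg_right hε1 h0.le
      linarith
    calc S * (W1 / L) ≤ S * (2 * W0 / L) := by gcongr
      _ = _ := by ring
  have h7 : 0 ≤ S * (W0 / L) := by positivity
  calc |P - S * (W0 / L)| = |(P - S * (W1 / L)) + (S * (W1 / L) - S * (W0 / L))| := by congr 1; ring
    _ ≤ |P - S * (W1 / L)| + |S * (W1 / L) - S * (W0 / L)| := abs_add_le _ _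
    _ ≤ ε * (S * (W1 / L)) + ε * (S * (W0 / L)) := add_le_add h h5
    _ ≤ ε * (2 * (S * (W0 / L))) + ε * (S * (W0 / L)) := by gcongr
    _ ≤ 4 * ε * (S * (W0 / L)) := by nlinarith

theorem gold {ε : ℝ} (hε : 0 < ε) : ∃ D : ℕ, 0 < D ∧ ∃ δ : ℝ, 0 < δ ∧ ∃ c : ℝ, 0 < c ∧ ∀ B : ℕ, ∀ κ : ℝ, 0 < κ →
    ∃ N0 : ℕ, ∀ N : ℕ, N0 ≤ N → ∃ r : ℕ, Real.log N ^ B ≤ r ∧ ∃ θ : ℝ, (N : ℝ) ^ (-κ) ≤ θ ∧ θ ≤ 1 ∧
    ∃ T : Finset ℕ, (T.card : ℝ) ≤ (N : ℝ) ^ (1 - δ) ∧ ∀ n : ℕ, 1 ≤ n → n ≤ N → n ∉ T →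
    ∀ q b : ℕ, 1 ≤ q → (q : ℝ) ≤ (N : ℝ) ^ δ → b < q → b.Coprime q → IsCoprime (2 * (n : ℤ) - b) q →
    ∃ S : ℝ, HasProd (fun p : Nat.Primes => (1 - (nuG n q b p : ℝ) / (p : ℕ)) * ((1 - 1 / ((p : ℕ) : ℝ))⁻¹) ^ 2) S ∧
      c ≤ S ∧ ∀ u v : ℕ, 1 ≤ u → v ≤ n → (N : ℝ) ^ (1 - δ) ≤ (v : ℝ) - u →
      c * θ ^ 2 * (S * (((v : ℝ) - u) / q / Real.log N ^ 2)) ≤ reps n q b u v ∧
      (¬ r ∣ D * (n * q) ^ 4 → |(reps n q b u v : ℝ) - S * (((v : ℝ) - u) / q / Real.log N ^ 2)| ≤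
        ε * (S * (((v : ℝ) - u) / q / Real.log N ^ 2))) := by
  classical
  obtain ⟨ε', hε'⟩ : ∃ ε' : ℝ, ε' = min ε 1 / 4 := ⟨_, rfl⟩
  have hε'0 : 0 < ε' := by rw [hε']; have := lt_min hε one_pos; positivity
  have hε'1 : 4 * ε' ≤ ε := by rw [hε']; have := min_le_left ε 1; linarith
  have hε'2 : ε' ≤ 1 := by rw [hε']; have := min_le_right ε 1; linarith
  obtain ⟨D, hD, δ0, hδ0, c0, hc0, hm⟩ := everyR 2 (by norm_num) hε'0
  obtain ⟨δ, hδ⟩ : ∃ δ : ℝ, δ = min δ0 1 / 4 := ⟨_, rfl⟩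
  have hδpos : 0 < δ := by rw [hδ]; have := lt_min hδ0 one_pos; positivity
  have hδ1 : 4 * δ ≤ δ0 := by rw [hδ]; have := min_le_left δ0 1; linarith
  have hδ2 : 4 * δ ≤ 1 := by rw [hδ]; have := min_le_right δ0 1; linarith
  refine ⟨4 * D, by omega, δ, hδpos, c0 / 2, by positivity, fun B κ hκ => ?_⟩
  obtain ⟨N1, hN1⟩ := hm B κ hκ
  obtain ⟨N2, hN2⟩ := ev_log (2 + 1 / ε') 0 (a := 2 * δ) (by positivity)
  obtain ⟨N3, hN3⟩ := ev_log 2 0 (a := δ0) hδ0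
  refine ⟨N1 + N2 + N3 + 3, fun N hN => ?_⟩
  obtain ⟨r, hr, θ, hθ1, hθ2, hP⟩ := hN1 N (by omega)
  have hNr : (3 : ℝ) ≤ N := by exact_mod_cast (by omega : 3 ≤ N)
  have hN0 : (0 : ℝ) < N := by linarith
  have hN1' : (1 : ℝ) ≤ N := by linarith
  have h2 := hN2 N (by omega)
  have h3 := hN3 N (by omega)
  rw [pow_zero, mul_one] at h2 h3
  have hmono : ∀ x y : ℝ, x ≤ y → (N : ℝ) ^ x ≤ (N : ℝ) ^ y := fun x y h => Real.rpow_le_rpow_of_exponent_le hN1' h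
  have hE : ∀ q : ℕ, 1 ≤ q → (q : ℝ) ≤ (N : ℝ) ^ δ → ∃ E : Finset (Fin 2 → ℤ), (E.card : ℝ) ≤ (N : ℝ) ^ (1 - δ0) ∧
    ∀ h : Fin 2 → ℤ, (∀ i, ((|h i| : ℤ) : ℝ) ≤ (N : ℝ) ^ (1 + δ0)) → (∀ e ∈ E, ∀ t : ℤ, h ≠ e + t • ga q) →
    (∀ p : ℕ, p.Prime → nuP (ga q) h p < p) →
    ∃ S : ℝ, HasProd (fun p : Nat.Primes => facP (ga q) h (p : ℕ)) S ∧ c0 ≤ S ∧ ∀ u v : ℤ, -(N : ℤ) ≤ u → v ≤ N →
      (N : ℝ) ^ (1 - δ0) ≤ ((v - u : ℤ) : ℝ) → (∀ n ∈ Ico u v, ∀ i, 1 ≤ ga q i * n + h i) →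
      c0 * θ ^ 2 * (S * (((v - u : ℤ) : ℝ) / Real.log N ^ 2)) ≤ (pc (ga q) h u v : ℝ) ∧
      (¬ (r : ℤ) ∣ (D : ℤ) * (Del (ga q) h * ∏ i, ga q i) →
        |(pc (ga q) h u v : ℝ) - S * (((v - u : ℤ) : ℝ) / Real.log N ^ 2)| ≤
        ε' * (S * (((v - u : ℤ) : ℝ) / Real.log N ^ 2))) := by
    intro q hq hqN
    obtain ⟨E, hE1, hE2⟩ := hP (ga q) (fun i => ⟨ga_ne hq i, by
      rw [ga_abs]
      exact (by exact_mod_cast hqN : ((q : ℤ) : ℝ) ≤ (N : ℝ) ^ δ).trans (hmono _ _ (by linarith))⟩)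
    refine ⟨E, ?_, hE2⟩
    have : ((2 : ℕ) : ℝ) - 1 - δ0 = 1 - δ0 := by norm_num
    rwa [this] at hE1
  choose! E hE1 hE2 using hE
  obtain ⟨T, hT⟩ : ∃ T : Finset ℕ, T = (Icc 1 ⌊(N : ℝ) ^ δ⌋₊).biUnion fun q => (E q).image (fun e => ((e 0 + e 1) / 2).toNat) :=
    ⟨_, rfl⟩
  refine ⟨r, hr, θ, hθ1, hθ2, T, ?_, fun n hn1 hnN hnT q b hq hqN hbq hcop1 hcop2 => ?_⟩
  · have e1 : (T.card : ℝ) ≤ ∑ q ∈ Icc 1 ⌊(N : ℝ) ^ δ⌋₊, ((E q).card : ℝ) := by
      rw [hT]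
      refine le_trans (by exact_mod_cast card_biUnion_le) (le_trans (le_of_eq (Nat.cast_sum _ _)) ?_)
      apply sum_le_sum
      intro q _
      exact_mod_cast card_image_le
    have e2 : ∑ q ∈ Icc 1 ⌊(N : ℝ) ^ δ⌋₊, ((E q).card : ℝ) ≤ ∑ _q ∈ Icc 1 ⌊(N : ℝ) ^ δ⌋₊, (N : ℝ) ^ (1 - δ0) := by
      apply sum_le_sum
      intro q hq
      rw [mem_Icc] at hq
      exact hE1 q hq.1 ((Nat.cast_le.2 hq.2).trans (Nat.floor_le (Real.rpow_nonneg hN0.le _)))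
    rw [sum_const, nsmul_eq_mul, Nat.card_Icc, Nat.add_sub_cancel] at e2
    have e3 : ((⌊(N : ℝ) ^ δ⌋₊ : ℕ) : ℝ) * (N : ℝ) ^ (1 - δ0) ≤ (N : ℝ) ^ δ * (N : ℝ) ^ (1 - δ0) :=
      mul_le_mul_of_nonneg_right (Nat.floor_le (Real.rpow_nonneg hN0.le _)) (Real.rpow_nonneg hN0.le _)
    rw [← Real.rpow_add hN0] at e3
    exact e1.trans (e2.trans (e3.trans (hmono _ _ (by linarith))))
  · have hbN : (b : ℝ) ≤ (N : ℝ) ^ δ := le_trans (by exact_mod_cast hbq.le) hqN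
    have hNδ : (N : ℝ) ^ δ ≤ N := by
      calc (N : ℝ) ^ δ ≤ (N : ℝ) ^ (1 : ℝ) := hmono _ _ (by linarith)
        _ = N := Real.rpow_one _
    have hN2N : 2 * (N : ℝ) ≤ (N : ℝ) ^ (1 + δ0) := by
      rw [Real.rpow_add hN0, Real.rpow_one, mul_comm]
      exact mul_le_mul_of_nonneg_left h3 hN0.le
    have hnr : (n : ℝ) ≤ N := by exact_mod_cast hnN
    have hn0 : (0 : ℝ) ≤ n := Nat.cast_nonneg n
    have hb0 : (0 : ℝ) ≤ b := Nat.cast_nonneg b
    obtain ⟨S, hS, hcS, hS2⟩ := hE2 q hq hqN (gh n b) (by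
      intro i
      refine le_trans ?_ hN2N
      fin_cases i
      · simp only [gh, Fin.zero_eta, Matrix.cons_val_zero]
        push_cast
        rw [abs_of_nonneg hb0]
        linarith
      · simp only [gh, Fin.mk_one, Matrix.cons_val_one, Matrix.cons_val_fin_one]
        push_cast
        rw [abs_le]
        constructor <;> linarith) (by
      intro e he t heq
      apply hnT
      rw [hT, mem_biUnion]
      refine ⟨q, mem_Icc.2 ⟨hq, Nat.le_floor hqN⟩, mem_image.2 ⟨e, he, ?_⟩⟩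
      have z0 := congrFun heq 0
      have z1 := congrFun heq 1
      simp only [gh, ga, Matrix.cons_val_zero, Matrix.cons_val_one, Matrix.cons_val_fin_one, Pi.add_apply, Pi.smul_apply,
        smul_eq_mul] at z0 z1
      have : e 0 + e 1 = 2 * n := by linarith
      omega) (fun p hp => adm_g hcop1 hcop2 hp)
    refine ⟨S, ?_, by linarith, fun u v hu hv hW => ?_⟩
    · have : (fun p : Nat.Primes => (1 - (nuG n q b p : ℝ) / (p : ℕ)) * ((1 - 1 / ((p : ℕ) : ℝ))⁻¹) ^ 2) =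
          (fun p : Nat.Primes => facP (ga q) (gh n b) (p : ℕ)) := by
        funext p
        unfold facP
        rw [nuP_g p.2]
      rw [this]
      exact hS
    · have hq0 : (0 : ℝ) < q := by exact_mod_cast hq
      obtain ⟨W0, hW0⟩ : ∃ W0 : ℝ, W0 = ((v : ℝ) - u) / q := ⟨_, rfl⟩
      obtain ⟨W1, hW1⟩ : ∃ W1 : ℝ, W1 = ((st q b v - st q b u : ℤ) : ℝ) := ⟨_, rfl⟩
      have hlen := st_len (b := b) (u := u) (v := v) hq
      rw [← hW0, ← hW1] at hlen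
      have hW0low : (N : ℝ) ^ (1 - 2 * δ) ≤ W0 := by
        rw [hW0, le_div_iff₀ hq0]
        calc (N : ℝ) ^ (1 - 2 * δ) * q ≤ (N : ℝ) ^ (1 - 2 * δ) * (N : ℝ) ^ δ :=
              mul_le_mul_of_nonneg_left hqN (Real.rpow_nonneg hN0.le _)
          _ = (N : ℝ) ^ (1 - δ) := by rw [← Real.rpow_add hN0]; congr 1; ring
          _ ≤ _ := hW
      have hW0big : 2 + 1 / ε' ≤ W0 := h2.trans ((hmono _ _ (by linarith)).trans hW0low)
      have hε'inv : 0 < 1 / ε' := by positivity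
      obtain ⟨hl1, hl2⟩ := abs_le.1 hlen
      have hW1low : W0 / 2 ≤ W1 := by linarith
      have hW1len : (N : ℝ) ^ (1 - δ0) ≤ W1 := by
        refine le_trans ?_ hW1low
        rw [le_div_iff₀ (by norm_num)]
        have e2 : 2 ≤ (N : ℝ) ^ (2 * δ) := by linarith
        calc (N : ℝ) ^ (1 - δ0) * 2 ≤ (N : ℝ) ^ (1 - 4 * δ) * (N : ℝ) ^ (2 * δ) :=
              mul_le_mul (hmono _ _ (by linarith)) e2 (by norm_num) (Real.rpow_nonneg hN0.le _)
          _ = (N : ℝ) ^ (1 - 2 * δ) := by rw [← Real.rpow_add hN0]; congr 1; ring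
          _ ≤ W0 := hW0low
      have hmain := hS2 (st q b u) (st q b v) (by
          rw [← not_lt]
          intro hc
          have h5 := (st_le (b := b) (u := u) hq (st q b u)).1 le_rfl
          have h6 : st q b u ≤ -1 := by omega
          have h7 : (q : ℤ) * st q b u ≤ q * (-1) := mul_le_mul_of_nonneg_left h6 (Int.natCast_nonneg _)
          omega) (by
          by_contra hc
          push Not at hc
          have h5 := (lt_st (b := b) (u := v) hq N).1 hc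
          have h6 : (1 : ℤ) * N ≤ q * N := mul_le_mul_of_nonneg_right (by exact_mod_cast hq) (Int.natCast_nonneg _)
          omega) (by rw [← hW1]; exact hW1len) (by
          intro m hm i
          rw [mem_Ico, st_le hq, lt_st hq] at hm
          fin_cases i
          · simp only [Fin.zero_eta, f0]
            omega
          · simp only [Fin.mk_one, f1]
            omega)
      rw [pc_g hq hbq hv, ← hW1] at hmain
      have hlog : 0 < Real.log N := Real.log_pos (by linarith)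
      have hS0 : 0 ≤ S := hc0.le.trans hcS
      have hθ0 : 0 ≤ θ := le_trans (Real.rpow_nonneg hN0.le _) hθ1
      rw [← hW0]
      constructor
      · refine le_trans ?_ hmain.1
        have e1 : c0 / 2 * θ ^ 2 * (S * (W0 / Real.log N ^ 2)) = c0 * θ ^ 2 * (S * (W0 / 2 / Real.log N ^ 2)) := by ring
        rw [e1]
        gcongr
      · intro hnd
        have h5 := hmain.2 (by
          intro hc
          apply hnd
          rw [Del_g] at hc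
          have e1 : ((4 * D * (n * q) ^ 4 : ℕ) : ℤ) = (D : ℤ) * (4 * (n : ℤ) ^ 2 * (q : ℤ) ^ 4) * (n : ℤ) ^ 2 := by
            push_cast
            ring
          have e2 : (r : ℤ) ∣ ((4 * D * (n * q) ^ 4 : ℕ) : ℤ) := by
            rw [e1]
            exact Dvd.dvd.mul_right hc _
          exact_mod_cast e2)
        have h6 := close_ineq hS0 (by positivity : 0 < Real.log N ^ 2) hε'0 hε'2 hlen (by linarith) h5
        refine h6.trans ?_
        apply mul_le_mul_of_nonneg_right hε'1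
        have : 0 ≤ W0 := by linarith
        positivity

end Pool.Agent.Helper86.GB
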