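import Pool.Agent.Helper86.GB.G2

set_option autoImplicit false

/-!
# Simultaneous Goldbach representations with a common prime: the linear forms
-/

open Finset

namespace Pool.Agent.Helper86.GB

open Pool.Agent.Helper86.PS
open Pool.Agent.Helper86.UA

/-- the coefficients -/
def ka (k q : ℕ) : Fin (k + 1) → ℤ := Fin.cons (q : ℤ) (fun _ => -(q : ℤ))

/-- the shifts -/
def kh {k : ℕ} (n : Fin k → ℕ) (b : ℕ) : Fin (k + 1) → ℤ := Fin.cons (b : ℤ) (fun i => 2 * (n i : ℤ) - b)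

lemma ka0 (k q : ℕ) : ka k q 0 = q := rfl

lemma kas (k q : ℕ) (i : Fin k) : ka k q i.succ = -(q : ℤ) := rfl

lemma kh0 {k : ℕ} (n : Fin k → ℕ) (b : ℕ) : kh n b 0 = b := rfl

lemma khs {k : ℕ} (n : Fin k → ℕ) (b : ℕ) (i : Fin k) : kh n b i.succ = 2 * (n i : ℤ) - b := rfl

lemma ka_abs (k q : ℕ) (i : Fin (k + 1)) : |ka k q i| = q := by
  refine Fin.cases ?_ (fun j => ?_) i
  · rw [ka0, Nat.abs_cast]
  · rw [kas, abs_neg, Nat.abs_cast]

lemma ka_ne {k q : ℕ} (hq : 1 ≤ q) (i : Fin (k + 1)) : ka k q i ≠ 0 := by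
  rw [← abs_ne_zero, ka_abs]
  exact_mod_cast (by omega : q ≠ 0)

/-- the discriminant -/
def kd {k : ℕ} (n : Fin k → ℕ) : ℤ := ∏ i, ((n i : ℤ) ^ 2 * ∏ j ∈ univ.erase i, ((n i : ℤ) - n j))

lemma prod_offdiag {k : ℕ} (f : Fin (k + 1) → Fin (k + 1) → ℤ) : ∏ i, ∏ j ∈ univ.erase i, f i j =
    (∏ j : Fin k, f 0 j.succ) * ((∏ i : Fin k, f i.succ 0) * ∏ i : Fin k, ∏ j ∈ univ.erase i, f i.succ j.succ) := by
  have h : ∀ {m : ℕ} (g : Fin m → Fin m → ℤ) (i : Fin m), ∏ j ∈ univ.erase i, g i j = ∏ j, if j = i then 1 else g i j := by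
    intro m g i
    rw [← mul_prod_erase univ (fun j => if j = i then 1 else g i j) (mem_univ i)]
    rw [if_pos rfl, one_mul]
    apply prod_congr rfl
    intro j hj
    rw [if_neg (ne_of_mem_erase hj)]
  have h1 : ∀ i : Fin (k + 1), ∏ j ∈ univ.erase i, f i j = ∏ j, if j = i then 1 else f i j := h f
  have h2 : ∀ i : Fin k, ∏ j ∈ univ.erase i, f i.succ j.succ = ∏ j : Fin k, if j = i then 1 else f i.succ j.succ :=
    h (fun i j => f i.succ j.succ)
  simp only [h1, h2]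
  rw [Fin.prod_univ_succ]
  congr 1
  · rw [Fin.prod_univ_succ, if_pos rfl, one_mul]
    apply prod_congr rfl
    intro j _
    rw [if_neg (Fin.succ_ne_zero j)]
  · rw [← prod_mul_distrib]
    apply prod_congr rfl
    intro i _
    rw [Fin.prod_univ_succ, if_neg (Fin.succ_ne_zero i).symm]
    congr 1
    apply prod_congr rfl
    intro j _
    by_cases hj : j = i
    · rw [if_pos hj, if_pos (by rw [hj])]
    · rw [if_neg hj, if_neg (fun hc => hj (Fin.succ_injective _ hc))]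

lemma Del_k {k : ℕ} (n : Fin k → ℕ) (q b : ℕ) : ∃ m : ℕ, Del (ka k q) (kh n b) * ∏ i, ka k q i =
    (-1) ^ m * (2 ^ (k * (k + 1)) * (q : ℤ) ^ ((k + 1) ^ 2) * kd n) := by
  unfold Del
  rw [prod_offdiag, Fin.prod_univ_succ]
  have hpc : ∀ c : ℤ, c ^ k = ∏ _j : Fin k, c := by
    intro c
    rw [prod_const, card_univ, Fintype.card_fin]
  have e1 : ∏ j : Fin k, (ka k q j.succ * kh n b 0 - ka k q 0 * kh n b j.succ) = (-2 * q) ^ k * ∏ j, (n j : ℤ) := by
    rw [hpc, ← prod_mul_distrib]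
    apply prod_congr rfl
    intro j _
    rw [kas, kh0, ka0, khs]
    ring
  have e2 : ∏ i : Fin k, (ka k q 0 * kh n b i.succ - ka k q i.succ * kh n b 0) = (2 * q) ^ k * ∏ j, (n j : ℤ) := by
    rw [hpc, ← prod_mul_distrib]
    apply prod_congr rfl
    intro j _
    rw [kas, kh0, ka0, khs]
    ring
  have e3 : ∏ i : Fin k, ∏ j ∈ univ.erase i, (ka k q j.succ * kh n b i.succ - ka k q i.succ * kh n b j.succ) =
      ((-2 * q) ^ (k - 1)) ^ k * ∏ i : Fin k, ∏ j ∈ univ.erase i, ((n i : ℤ) - n j) := by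
    have : ((-2 * (q : ℤ)) ^ (k - 1)) ^ k = ∏ _i : Fin k, (-2 * (q : ℤ)) ^ (k - 1) := by
      rw [prod_const, card_univ, Fintype.card_fin]
    rw [this, ← prod_mul_distrib]
    apply prod_congr rfl
    intro i _
    have h1 : (-2 * (q : ℤ)) ^ (k - 1) = ∏ _j ∈ (univ : Finset (Fin k)).erase i, (-2 * (q : ℤ)) := by
      rw [prod_const, card_erase_of_mem (mem_univ i), card_univ, Fintype.card_fin]
    rw [h1, ← prod_mul_distrib]
    apply prod_congr rfl
    intro j _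
    rw [kas, khs, kas, khs]
    ring
  have e4 : ∏ i : Fin k, ka k q i.succ = (-1) ^ k * (q : ℤ) ^ k := by
    simp only [kas]
    rw [prod_const, card_univ, Fintype.card_fin, ← mul_pow]
    congr 1
    ring
  have e5 : kd n = (∏ j, (n j : ℤ)) * ((∏ j, (n j : ℤ)) * ∏ i : Fin k, ∏ j ∈ univ.erase i, ((n i : ℤ) - n j)) := by
    unfold kd
    rw [← prod_mul_distrib, ← prod_mul_distrib]
    apply prod_congr rfl
    intro i _
    ring
  rw [e1, e2, e3, e4, e5, ka0]
  have hp : ∀ m : ℕ, (-2 * (q : ℤ)) ^ m = (-1) ^ m * (2 ^ m * (q : ℤ) ^ m) := by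
    intro m
    rw [← mul_pow, ← mul_pow]
    congr 1
    ring
  have h2q : (2 * (q : ℤ)) ^ k = 2 ^ k * (q : ℤ) ^ k := mul_pow _ _ _
  rw [hp, hp, h2q, mul_pow, mul_pow, ← pow_mul, ← pow_mul, ← pow_mul]
  refine ⟨k + (k - 1) * k + k, ?_⟩
  have a1 : k * (k + 1) = k + k + (k - 1) * k := by
    rcases Nat.eq_zero_or_pos k with h | h
    · subst h; rfl
    · obtain ⟨l, rfl⟩ : ∃ l, k = l + 1 := ⟨k - 1, by omega⟩
      rw [Nat.add_sub_cancel]
      ring
  have a2 : (k + 1) ^ 2 = k + k + (k - 1) * k + (1 + k) := by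
    have : (k + 1) ^ 2 = k * (k + 1) + (1 + k) := by ring
    rw [this, a1]
  rw [a2, a1, pow_add, pow_add, pow_add, pow_add, pow_add, pow_add, pow_add, pow_add, pow_one]
  ring

/-- the number of the residue classes -/
def nuK {k : ℕ} (n : Fin k → ℕ) (q b p : ℕ) : ℕ :=
  ((range p).filter (fun x : ℕ => (p : ℤ) ∣ (q : ℤ) * x + b ∨ ∃ i, (p : ℤ) ∣ 2 * n i - (q * x + b))).card

lemma nuP_k {k : ℕ} (n : Fin k → ℕ) (q b p : ℕ) : nuP (ka k q) (kh n b) p = nuK n q b p := by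
  unfold nuP nuK
  congr 1
  apply filter_congr
  intro x _
  rw [Fin.exists_fin_succ]
  have e0 : ka k q 0 * (x : ℤ) + kh n b 0 = (q : ℤ) * x + b := rfl
  have e1 : ∀ i : Fin k, ka k q i.succ * (x : ℤ) + kh n b i.succ = 2 * n i - (q * x + b) := by
    intro i
    rw [kas, khs]
    ring
  rw [e0]
  simp only [e1]

/-- the number of the representations -/
def repK {k : ℕ} (n : Fin k → ℕ) (q b u v : ℕ) : ℕ :=
  ((Ico u v).filter (fun p => p.Prime ∧ (∀ i, (2 * n i - p).Prime) ∧ p ≡ b [MOD q])).card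

lemma pc_k {k : ℕ} {n : Fin k → ℕ} {q b u v : ℕ} (hq : 1 ≤ q) (hv : ∀ i, v ≤ n i) :
    pc (ka k q) (kh n b) (st q b u) (st q b v) = repK n q b u v := by
  have hq0 : (0 : ℤ) < q := by exact_mod_cast hq
  have e0 : ∀ x : ℤ, ka k q 0 * x + kh n b 0 = (q : ℤ) * x + b := fun x => rfl
  have e1 : ∀ (x : ℤ) (i : Fin k), ka k q i.succ * x + kh n b i.succ = 2 * n i - (q * x + b) := by
    intro x i
    rw [kas, khs]
    ring
  unfold pc repK
  apply card_bij (fun (m : ℤ) _ => (q * m + b).toNat)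
  · intro m hm
    rw [mem_filter, mem_Ico, Fin.forall_fin_succ, e0, st_le hq, lt_st hq] at hm
    simp only [e1] at hm
    obtain ⟨⟨h1, h2⟩, h3, h4⟩ := hm
    obtain ⟨y, hy⟩ : ∃ y : ℕ, (y : ℤ) = q * m + b := ⟨(q * m + b).toNat, Int.toNat_of_nonneg (by omega)⟩
    have e2 : (q * m + b).toNat = y := by omega
    rw [e2] at h3
    rw [mem_filter, mem_Ico, e2]
    refine ⟨by omega, h3, fun i => ?_, ?_⟩
    · have h5 := h4 i
      have h6 := hv i
      have e3 : (2 * (n i : ℤ) - (q * m + b)).toNat = 2 * n i - y := by omega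
      rwa [e3] at h5
    · have e3 : (b : ℤ) ≡ y [ZMOD q] := by
        rw [hy, Int.modEq_iff_dvd]
        exact ⟨m, by ring⟩
      exact (Int.natCast_modEq_iff.1 e3).symm
  · intro m hm m' hm' hmm
    rw [mem_filter, mem_Ico, Fin.forall_fin_succ, e0, st_le hq, lt_st hq] at hm hm'
    have h1 : (q : ℤ) * m + b = q * m' + b := by
      have a1 : 0 ≤ (q : ℤ) * m + b := by
        have := hm.1.1
        omega
      have a2 : 0 ≤ (q : ℤ) * m' + b := by
        have := hm'.1.1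
        omega
      omega
    have h2 : (q : ℤ) * m = q * m' := by linarith
    exact mul_left_cancel₀ hq0.ne' h2
  · intro p hp
    rw [mem_filter, mem_Ico] at hp
    obtain ⟨⟨h1, h2⟩, h3, h4, h5⟩ := hp
    have h6 : (b : ℤ) ≡ p [ZMOD q] := Int.natCast_modEq_iff.2 h5.symm
    rw [Int.modEq_iff_dvd] at h6
    obtain ⟨m, hm⟩ := h6
    have e2 : (q : ℤ) * m + b = p := by linarith
    refine ⟨m, ?_, by rw [e2]; simp⟩
    rw [mem_filter, mem_Ico, Fin.forall_fin_succ, e0, st_le hq, lt_st hq]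
    simp only [e1, e2]
    refine ⟨⟨by exact_mod_cast h1, by exact_mod_cast h2⟩, by simpa using h3, fun i => ?_⟩
    have h7 := hv i
    have e3 : (2 * (n i : ℤ) - p).toNat = 2 * n i - p := by omega
    rw [e3]
    exact h4 i

end Pool.Agent.Helper86.GB
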