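import Pool.Agent.Helper86.GB.K2
import Pool.Agent.Helper86.EA.E9

set_option autoImplicit false

/-!
# Simultaneous Goldbach representations with a common prime: the exceptional zero in the main term
-/

open Finset

namespace Pool.Agent.Helper86.GB

open Pool.Agent.Helper86.PS
open Pool.Agent.Helper86.UA
open Pool.Agent.Helper86.EA

/-- the residues modulo `r` at which all the numbers are prime to `r` -/
def unK {k : ℕ} (r : ℕ) (n : Fin k → ℕ) (q b : ℕ) : Finset ℕ :=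
  (range r).filter (fun x : ℕ => Int.gcd ((q : ℤ) * x + b) r = 1 ∧ ∀ i, Int.gcd (2 * n i - (q * x + b)) r = 1)

/-- the mean of the twisted factor -/
noncomputable def twK {k r : ℕ} (χ : DirichletCharacter ℂ r) (y : ℝ) (n : Fin k → ℕ) (q b : ℕ) : ℝ :=
  (∑ x ∈ unK r n q b, (1 - y * (χ (((q : ℤ) * x + b : ℤ) : ZMod r)).re) *
    ∏ i, (1 - y * (χ ((2 * n i - (q * x + b) : ℤ) : ZMod r)).re)) / (unK r n q b).card

lemma twK_eq {k : ℕ} (j : PC) (y : ℝ) (n : Fin k → ℕ) (q b : ℕ) :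
    twA j y (ka k q) (kh n b) = twK j.2 y n q b := by
  have e0 : ∀ x : ℤ, ka k q 0 * x + kh n b 0 = (q : ℤ) * x + b := fun x => rfl
  have e1 : ∀ (x : ℤ) (i : Fin k), ka k q i.succ * x + kh n b i.succ = 2 * n i - (q * x + b) := by
    intro x i
    rw [kas, khs]
    ring
  have hset : twG (j.1 + 1) (ka k q) (kh n b) = unK (j.1 + 1) n q b := by
    unfold twG unK
    apply filter_congr
    intro x _
    rw [Fin.forall_fin_succ, e0]
    simp only [e1]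
  unfold twA twK
  rw [hset]
  congr 1
  apply sum_congr rfl
  intro x _
  rw [Fin.prod_univ_succ, e0]
  simp only [e1]
  rfl

theorem goldKA (k : ℕ) {ε : ℝ} (hε : 0 < ε) : ∃ D : ℕ, 0 < D ∧ ∃ δ : ℝ, 0 < δ ∧ ∃ c : ℝ, 0 < c ∧ ∀ B : ℕ, ∀ κ : ℝ, 0 < κ →
    ∃ N0 : ℕ, ∀ N : ℕ, N0 ≤ N →
    ∃ j1 : PC, Real.log N ^ B ≤ ((j1.1 + 1 : ℕ) : ℝ) ∧ j1.2 ^ 2 = 1 ∧ ∃ y : ℝ, 0 ≤ y ∧ y ≤ 1 - (N : ℝ) ^ (-κ) ∧
      (y = 0 ∨ (j1.2.IsPrimitive ∧ j1.2 ≠ 1 ∧ ∃ β : ℝ, y = (N : ℝ) ^ (β - 1) ∧ j1.2.LFunction β = 0)) ∧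
    ∃ T : Finset (Fin k → ℕ), (T.card : ℝ) ≤ (N : ℝ) ^ ((k : ℝ) - δ) ∧ ∀ n : Fin k → ℕ, (∀ i, n i ≤ N) → n ∉ T →
    ∀ q b : ℕ, 1 ≤ q → (q : ℝ) ≤ (N : ℝ) ^ δ → b ≤ q → (∀ p : ℕ, p.Prime → nuK n q b p < p) →
    (1 - y) ^ (k + 1) ≤ twK j1.2 y n q b ∧ twK j1.2 y n q b ≤ 2 ^ (k + 1) ∧
    ∃ S : ℝ, HasProd (fun p : Nat.Primes => (1 - (nuK n q b p : ℝ) / (p : ℕ)) * ((1 - 1 / ((p : ℕ) : ℝ))⁻¹) ^ (k + 1)) S ∧
      c ≤ S ∧ ∀ u v : ℕ, 1 ≤ u → v ≤ N → (∀ i, v ≤ n i) → (N : ℝ) ^ (1 - δ) ≤ (v : ℝ) - u →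
      |(repK n q b u v : ℝ) - twK j1.2 y n q b * S * (((v : ℝ) - u) / q / Real.log N ^ (k + 1))| ≤
          ε * (twK j1.2 y n q b * S * (((v : ℝ) - u) / q / Real.log N ^ (k + 1))) ∧
      (¬ ((j1.1 + 1 : ℕ) : ℤ) ∣ D * (q ^ ((k + 1) ^ 2) * kd n) →
        |(repK n q b u v : ℝ) - S * (((v : ℝ) - u) / q / Real.log N ^ (k + 1))| ≤
          ε * (S * (((v : ℝ) - u) / q / Real.log N ^ (k + 1)))) := by
  classical
  obtain ⟨ε', hε'⟩ : ∃ ε' : ℝ, ε' = min ε 1 / 4 := ⟨_, rfl⟩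
  have hε'0 : 0 < ε' := by rw [hε']; have := lt_min hε one_pos; positivity
  have hε'1 : 4 * ε' ≤ ε := by rw [hε']; have := min_le_left ε 1; linarith
  have hε'2 : ε' ≤ 1 := by rw [hε']; have := min_le_right ε 1; linarith
  obtain ⟨D, hD, δ0, hδ0, c0, hc0, hm⟩ := everyA (k + 1) (by omega) hε'0
  obtain ⟨δ, hδ⟩ : ∃ δ : ℝ, δ = min δ0 1 / 4 := ⟨_, rfl⟩
  have hδpos : 0 < δ := by rw [hδ]; have := lt_min hδ0 one_pos; positivity
  have hδ1 : 4 * δ ≤ δ0 := by rw [hδ]; have := min_le_left δ0 1; linarith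
  have hδ2 : 4 * δ ≤ 1 := by rw [hδ]; have := min_le_right δ0 1; linarith
  refine ⟨2 ^ (k * (k + 1)) * D, by positivity, δ, hδpos, c0, hc0, fun B κ hκ => ?_⟩
  obtain ⟨N1, hN1⟩ := hm B κ hκ
  obtain ⟨N2, hN2⟩ := ev_log (2 + 1 / ε') 0 (a := 2 * δ) (by positivity)
  obtain ⟨N3, hN3⟩ := ev_log 2 0 (a := δ0) hδ0
  refine ⟨N1 + N2 + N3 + 3, fun N hN => ?_⟩
  obtain ⟨j1, hr, hj2, y, hy0, hyκ, hyβ, hP⟩ := hN1 N (by omega)
  have hNr : (3 : ℝ) ≤ N := by exact_mod_cast (by omega : 3 ≤ N)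
  have hN0 : (0 : ℝ) < N := by linarith
  have hN1' : (1 : ℝ) ≤ N := by linarith
  have h2 := hN2 N (by omega)
  have h3 := hN3 N (by omega)
  rw [pow_zero, mul_one] at h2 h3
  have hmono : ∀ x y : ℝ, x ≤ y → (N : ℝ) ^ x ≤ (N : ℝ) ^ y := fun x y h => Real.rpow_le_rpow_of_exponent_le hN1' h
  have hE : ∀ q : ℕ, 1 ≤ q → (q : ℝ) ≤ (N : ℝ) ^ δ → ∃ E : Finset (Fin (k + 1) → ℤ),
    (E.card : ℝ) ≤ (N : ℝ) ^ ((k : ℝ) - δ0) ∧
    ∀ h : Fin (k + 1) → ℤ, (∀ i, ((|h i| : ℤ) : ℝ) ≤ (N : ℝ) ^ (1 + δ0)) → (∀ e ∈ E, ∀ t : ℤ, h ≠ e + t • ka k q) →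
    (∀ p : ℕ, p.Prime → nuP (ka k q) h p < p) →
    (1 - y) ^ (k + 1) ≤ twA j1 y (ka k q) h ∧ twA j1 y (ka k q) h ≤ 2 ^ (k + 1) ∧
    ∃ S : ℝ, HasProd (fun p : Nat.Primes => facP (ka k q) h (p : ℕ)) S ∧ c0 ≤ S ∧ ∀ u v : ℤ, -(N : ℤ) ≤ u → v ≤ N →
      (N : ℝ) ^ (1 - δ0) ≤ ((v - u : ℤ) : ℝ) → (∀ n ∈ Ico u v, ∀ i, 1 ≤ ka k q i * n + h i) →
      |(pc (ka k q) h u v : ℝ) - twA j1 y (ka k q) h * S * (((v - u : ℤ) : ℝ) / Real.log N ^ (k + 1))| ≤
        ε' * (twA j1 y (ka k q) h * S * (((v - u : ℤ) : ℝ) / Real.log N ^ (k + 1))) ∧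
      (¬ ((j1.1 + 1 : ℕ) : ℤ) ∣ (D : ℤ) * (Del (ka k q) h * ∏ i, ka k q i) →
        |(pc (ka k q) h u v : ℝ) - S * (((v - u : ℤ) : ℝ) / Real.log N ^ (k + 1))| ≤
        ε' * (S * (((v - u : ℤ) : ℝ) / Real.log N ^ (k + 1)))) := by
    intro q hq hqN
    obtain ⟨E, hE1, hE2⟩ := hP (ka k q) (fun i => ⟨ka_ne hq i, by
      rw [ka_abs]
      exact (by exact_mod_cast hqN : ((q : ℤ) : ℝ) ≤ (N : ℝ) ^ δ).trans (hmono _ _ (by linarith))⟩)
    refine ⟨E, ?_, hE2⟩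
    have : ((k + 1 : ℕ) : ℝ) - 1 - δ0 = k - δ0 := by push_cast; ring
    rwa [this] at hE1
  choose! E hE1 hE2 using hE
  obtain ⟨T, hT⟩ : ∃ T : Finset (Fin k → ℕ), T = (Icc 1 ⌊(N : ℝ) ^ δ⌋₊).biUnion fun q =>
    (E q).image (fun e => fun i : Fin k => ((e 0 + e i.succ) / 2).toNat) := ⟨_, rfl⟩
  refine ⟨j1, hr, hj2, y, hy0, hyκ, hyβ, T, ?_, fun n hnN hnT q b hq hqN hbq hadm => ?_⟩
  · have e1 : (T.card : ℝ) ≤ ∑ q ∈ Icc 1 ⌊(N : ℝ) ^ δ⌋₊, ((E q).card : ℝ) := by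
      rw [hT]
      refine le_trans (by exact_mod_cast card_biUnion_le) (le_trans (le_of_eq (Nat.cast_sum _ _)) ?_)
      apply sum_le_sum
      intro q _
      exact_mod_cast card_image_le
    have e2 : ∑ q ∈ Icc 1 ⌊(N : ℝ) ^ δ⌋₊, ((E q).card : ℝ) ≤ ∑ _q ∈ Icc 1 ⌊(N : ℝ) ^ δ⌋₊, (N : ℝ) ^ ((k : ℝ) - δ0) := by
      apply sum_le_sum
      intro q hq
      rw [mem_Icc] at hq
      exact hE1 q hq.1 ((Nat.cast_le.2 hq.2).trans (Nat.floor_le (Real.rpow_nonneg hN0.le _)))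
    rw [sum_const, nsmul_eq_mul, Nat.card_Icc, Nat.add_sub_cancel] at e2
    have e3 : ((⌊(N : ℝ) ^ δ⌋₊ : ℕ) : ℝ) * (N : ℝ) ^ ((k : ℝ) - δ0) ≤ (N : ℝ) ^ δ * (N : ℝ) ^ ((k : ℝ) - δ0) :=
      mul_le_mul_of_nonneg_right (Nat.floor_le (Real.rpow_nonneg hN0.le _)) (Real.rpow_nonneg hN0.le _)
    rw [← Real.rpow_add hN0] at e3
    exact e1.trans (e2.trans (e3.trans (hmono _ _ (by linarith))))
  · have hbN : (b : ℝ) ≤ (N : ℝ) ^ δ := le_trans (by exact_mod_cast hbq) hqN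
    have hNδ : (N : ℝ) ^ δ ≤ N := by
      calc (N : ℝ) ^ δ ≤ (N : ℝ) ^ (1 : ℝ) := hmono _ _ (by linarith)
        _ = N := Real.rpow_one _
    have hN2N : 2 * (N : ℝ) ≤ (N : ℝ) ^ (1 + δ0) := by
      rw [Real.rpow_add hN0, Real.rpow_one, mul_comm]
      exact mul_le_mul_of_nonneg_left h3 hN0.le
    have hnr : ∀ i, (n i : ℝ) ≤ N := fun i => by exact_mod_cast hnN i
    have hn0 : ∀ i, (0 : ℝ) ≤ n i := fun i => Nat.cast_nonneg _
    have hb0 : (0 : ℝ) ≤ b := Nat.cast_nonneg b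
    obtain ⟨hT1, hT2, S, hS, hcS, hS2⟩ := hE2 q hq hqN (kh n b) (by
      intro i
      refine le_trans ?_ hN2N
      refine Fin.cases ?_ (fun j => ?_) i
      · rw [kh0]
        push_cast
        rw [abs_of_nonneg hb0]
        linarith
      · rw [khs]
        push_cast
        rw [abs_le]
        have := hnr j
        have := hn0 j
        constructor <;> linarith) (by
      intro e he t heq
      apply hnT
      rw [hT, mem_biUnion]
      refine ⟨q, mem_Icc.2 ⟨hq, Nat.le_floor hqN⟩, mem_image.2 ⟨e, he, ?_⟩⟩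
      funext i
      have z0 := congrFun heq 0
      have z1 := congrFun heq i.succ
      simp only [Pi.add_apply, Pi.smul_apply, smul_eq_mul] at z0 z1
      rw [kh0, ka0] at z0
      rw [khs, kas] at z1
      have : e 0 + e i.succ = 2 * n i := by linarith
      omega) (fun p hp => by rw [nuP_k]; exact hadm p hp)
    rw [twK_eq] at hT1 hT2
    have hy1 : y ≤ 1 := by
      have := Real.rpow_nonneg hN0.le (-κ)
      linarith
    have hT0 : 0 ≤ twK j1.2 y n q b := le_trans (pow_nonneg (by linarith) _) hT1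
    refine ⟨hT1, hT2, S, ?_, hcS, fun u v hu hvN hv hW => ?_⟩
    · have : (fun p : Nat.Primes => (1 - (nuK n q b p : ℝ) / (p : ℕ)) * ((1 - 1 / ((p : ℕ) : ℝ))⁻¹) ^ (k + 1)) =
          (fun p : Nat.Primes => facP (ka k q) (kh n b) (p : ℕ)) := by
        funext p
        unfold facP
        rw [nuP_k]
      rw [this]
      exact hS
    · have hq0 : (0 : ℝ) < q := by exact_mod_cast hq
      obtain ⟨W0, hW0⟩ : ∃ W0 : ℝ, W0 = ((v : ℝ) - u) / q := ⟨_, rfl⟩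
      obtain ⟨W1, hW1⟩ : ∃ W1 : ℝ, W1 = ((st q b v - st q b u : ℤ) : ℝ) := ⟨_, rfl⟩
      have hlen := st_len (b := b) (u := u) (v := v) hq
      rw [← hW0, ← hW1] at hlen
      have hW0low : (N : ℝ) ^ (1 - 2 * δ) ≤ W0 := by
        rw [hW0, le_div_iff₀ hq0]
        calc (N : ℝ) ^ (1 - 2 * δ) * q ≤ (N : ℝ) ^ (1 - 2 * δ) * (N : ℝ) ^ δ :=
              mul_le_mul_of_nonneg_left hqN (Real.rpow_nonneg hN0.le _)
          _ = (N : ℝ) ^ (1 - δ) := by rw [← Real.rpow_add hN0]; congr 1; ring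
          _ ≤ _ := hW
      have hW0big : 2 + 1 / ε' ≤ W0 := h2.trans ((hmono _ _ (by linarith)).trans hW0low)
      have hε'inv : 0 < 1 / ε' := by positivity
      obtain ⟨hl1, hl2⟩ := abs_le.1 hlen
      have hW1low : W0 / 2 ≤ W1 := by linarith
      have hW1len : (N : ℝ) ^ (1 - δ0) ≤ W1 := by
        refine le_trans ?_ hW1low
        rw [le_div_iff₀ (by norm_num)]
        have e2 : 2 ≤ (N : ℝ) ^ (2 * δ) := by linarith
        calc (N : ℝ) ^ (1 - δ0) * 2 ≤ (N : ℝ) ^ (1 - 4 * δ) * (N : ℝ) ^ (2 * δ) :=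
              mul_le_mul (hmono _ _ (by linarith)) e2 (by norm_num) (Real.rpow_nonneg hN0.le _)
          _ = (N : ℝ) ^ (1 - 2 * δ) := by rw [← Real.rpow_add hN0]; congr 1; ring
          _ ≤ W0 := hW0low
      have hmain := hS2 (st q b u) (st q b v) (by
          rw [← not_lt]
          intro hc
          have h5 := (st_le (b := b) (u := u) hq (st q b u)).1 le_rfl
          have h6 : st q b u ≤ -1 - N := by omega
          have h7 : (q : ℤ) * st q b u ≤ q * (-1 - N) := mul_le_mul_of_nonneg_left h6 (Int.natCast_nonneg _)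
          have h8 : (0 : ℤ) ≤ q * N := by positivity
          have h9 : (q : ℤ) * (-1 - N) = -q - q * N := by ring
          omega) (by
          by_contra hc
          push Not at hc
          have h5 := (lt_st (b := b) (u := v) hq N).1 hc
          have h6 : (1 : ℤ) * N ≤ q * N := mul_le_mul_of_nonneg_right (by exact_mod_cast hq) (Int.natCast_nonneg _)
          omega) (by rw [← hW1]; exact hW1len) (by
          intro m hm i
          rw [mem_Ico, st_le hq, lt_st hq] at hm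
          refine Fin.cases ?_ (fun j => ?_) i
          · rw [ka0, kh0]
            omega
          · rw [kas, khs]
            have := hv j
            have e1 : -(q : ℤ) * m + (2 * (n j : ℤ) - b) = 2 * n j - (q * m + b) := by ring
            rw [e1]
            omega)
      rw [pc_k hq hv, ← hW1, twK_eq] at hmain
      have hlog : 0 < Real.log N := Real.log_pos (by linarith)
      have hS0 : 0 ≤ S := hc0.le.trans hcS
      rw [← hW0]
      constructor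
      · have h6 := close_ineq (mul_nonneg hT0 hS0) (by positivity : 0 < Real.log N ^ (k + 1)) hε'0 hε'2 hlen (by linarith) hmain.1
        refine h6.trans ?_
        apply mul_le_mul_of_nonneg_right hε'1
        have : 0 ≤ W0 := by linarith
        positivity
      · intro hnd
        have h5 := hmain.2 (by
          intro hc
          apply hnd
          obtain ⟨m, hm⟩ := Del_k n q b
          rw [hm] at hc
          have e1 : (D : ℤ) * ((-1) ^ m * (2 ^ (k * (k + 1)) * (q : ℤ) ^ ((k + 1) ^ 2) * kd n)) =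
            (-1) ^ m * (((2 ^ (k * (k + 1)) * D : ℕ) : ℤ) * ((q : ℤ) ^ ((k + 1) ^ 2) * kd n)) := by
            push_cast
            ring
          rw [e1] at hc
          exact ((isUnit_neg_one.pow m).dvd_mul_left).1 hc)
        have h6 := close_ineq hS0 (by positivity : 0 < Real.log N ^ (k + 1)) hε'0 hε'2 hlen (by linarith) h5
        refine h6.trans ?_
        apply mul_le_mul_of_nonneg_right hε'1
        have : 0 ≤ W0 := by linarith
        positivity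

end Pool.Agent.Helper86.GB
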